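import Mathlib

/-!
# The cardinal `prop_(T)` is the continuum

`prop_(T)` is the least cardinality of a maximal subalgebra of `Bor(2^ℕ)` with property (T).
Property (T) only sees the algebra modulo null sets, so a maximal algebra with property (T) is
closed under modifications on Borel null sets. In particular it contains all singletons, hence
has cardinality `𝔠`.
-/

set_option autoImplicit false

open MeasureTheory Cardinal Set

namespace Pool.Agent.Results.MP_898cae_lc.PropTEqContinuum

/-- The Cantor space `2^ℕ`. -/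
abbrev Cantor : Type := ℕ → Bool

/-- The fair coin measure on `{0, 1}`. -/
noncomputable def coin : Measure Bool := (PMF.uniformOfFintype Bool).toMeasure

instance : IsProbabilityMeasure coin := by unfold coin; infer_instance

/-- The standard product measure on the Cantor space. -/
noncomputable def lam : Measure Cantor := Measure.infinitePi fun _ => coin

instance : IsProbabilityMeasure lam := by unfold lam; infer_instance

/-- `V m i` is the set of all `x` with `x m = i`. -/
def V (m : ℕ) (i : Bool) : Set Cantor := {x | x m = i}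

/-- The atom of `𝒜_n` containing `x`: all `y` with `y i = x i` for `i ≤ n`. -/
def atom (n : ℕ) (x : Cantor) : Set Cantor := {y | ∀ i ≤ n, y i = x i}

/-- `phi m A = |λ(A ∩ V_m^0) - λ(A ∩ V_m^1)|`. -/
noncomputable def phi (m : ℕ) (A : Set Cantor) : ℝ :=
  |lam.real (A ∩ V m false) - lam.real (A ∩ V m true)|

/-- `B` is a subalgebra of `Bor(2^ℕ)` which contains all clopen sets. -/
structure IsAlg (B : Set (Set Cantor)) : Prop where
  borel : ∀ A ∈ B, MeasurableSet[borel Cantor] A
  clopen : ∀ A, IsClopen A → A ∈ B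
  compl : ∀ A ∈ B, Aᶜ ∈ B
  union : ∀ A ∈ B, ∀ A' ∈ B, A ∪ A' ∈ B

/-- Property (T): for all `A_1, ..., A_p` in `B` and `ε > 0` there is `n > 0` such that (T.1) and
(T.2) hold for every atom `U` of `𝒜_n` and every `A_i`. -/
def PropT (B : Set (Set Cantor)) : Prop :=
  ∀ F : Finset (Set Cantor), (∀ A ∈ F, A ∈ B) → ∀ ε : ℝ, 0 < ε → ∃ n : ℕ, 0 < n ∧
    ∀ x : Cantor, ∀ A ∈ F,
      (lam.real (A ∩ atom n x) ≤ ε * lam.real (atom n x) / n ∨
        lam.real (atom n x \ A) ≤ ε * lam.real (atom n x) / n) ∧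
      ∀ m > n, phi m (A ∩ atom n x) ≤ ε * lam.real (atom n x) / m

/-- `B` is a maximal subalgebra of `Bor(2^ℕ)` with property (T). -/
def IsMaxT (B : Set (Set Cantor)) : Prop := Maximal (fun B => IsAlg B ∧ PropT B) B

/-- The cardinal `prop_(T)`. -/
noncomputable def propT : Cardinal.{0} := sInf {κ | ∃ B : Set (Set Cantor), IsMaxT B ∧ #B = κ}

/-! ### Modification on null sets -/

theorem real_congr {A A' : Set Cantor} (h : A =ᵐ[lam] A') : lam.real A = lam.real A' :=
  measureReal_congr h

/-- All Borel sets which are equal to an element of `B` up to a null set. -/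
def hull (B : Set (Set Cantor)) : Set (Set Cantor) :=
  {A | MeasurableSet[borel Cantor] A ∧ ∃ A' ∈ B, A =ᵐ[lam] A'}

theorem isAlg_hull {B : Set (Set Cantor)} (hB : IsAlg B) : IsAlg (hull B) where
  borel := fun _ hA => hA.1
  clopen := fun A hA => ⟨hB.borel A (hB.clopen A hA), A, hB.clopen A hA, Filter.EventuallyEq.rfl⟩
  compl := by
    rintro A ⟨h1, A', h2, h3⟩
    exact ⟨h1.compl, A'ᶜ, hB.compl _ h2, h3.compl⟩
  union := by
    rintro A ⟨h1, A', h2, h3⟩ C ⟨h4, C', h5, h6⟩
    exact ⟨h1.union h4, A' ∪ C', hB.union _ h2 _ h5, h3.union h6⟩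

theorem propT_hull {B : Set (Set Cantor)} (hB : PropT B) : PropT (hull B) := by
  classical
  intro F hF ε hε
  have hF' : ∀ A : Set Cantor, ∃ A' : Set Cantor, A ∈ F → A' ∈ B ∧ A =ᵐ[lam] A' := by
    intro A
    by_cases hA : A ∈ F
    · obtain ⟨-, A', h1, h2⟩ := hF A hA
      exact ⟨A', fun _ => ⟨h1, h2⟩⟩
    · exact ⟨A, fun h => absurd h hA⟩
  choose g hg using hF'
  obtain ⟨n, hn, h⟩ := hB (F.image g) (by
    intro A hA
    obtain ⟨C, hC, rfl⟩ := Finset.mem_image.1 hA
    exact (hg C hC).1) ε hε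
  refine ⟨n, hn, fun x A hA => ?_⟩
  obtain ⟨h1, h2⟩ := h x (g A) (Finset.mem_image_of_mem g hA)
  have hA' := (hg A hA).2
  have e1 : lam.real (A ∩ atom n x) = lam.real (g A ∩ atom n x) :=
    real_congr (hA'.inter Filter.EventuallyEq.rfl)
  have e2 : lam.real (atom n x \ A) = lam.real (atom n x \ g A) :=
    real_congr (Filter.EventuallyEq.rfl.diff hA')
  refine ⟨by rw [e1, e2]; exact h1, fun m hm => ?_⟩
  have e3 : phi m (A ∩ atom n x) = phi m (g A ∩ atom n x) := by
    unfold phi
    rw [real_congr (((hA'.inter Filter.EventuallyEq.rfl).inter Filter.EventuallyEq.rfl :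
        (A ∩ atom n x ∩ V m false : Set Cantor) =ᵐ[lam] (g A ∩ atom n x ∩ V m false : Set Cantor))),
      real_congr (((hA'.inter Filter.EventuallyEq.rfl).inter Filter.EventuallyEq.rfl :
        (A ∩ atom n x ∩ V m true : Set Cantor) =ᵐ[lam] (g A ∩ atom n x ∩ V m true : Set Cantor)))]
  rw [e3]
  exact h2 m hm

theorem subset_hull {B : Set (Set Cantor)} (hB : IsAlg B) : B ⊆ hull B :=
  fun A hA => ⟨hB.borel A hA, A, hA, Filter.EventuallyEq.rfl⟩

theorem hull_subset {B : Set (Set Cantor)} (hB : IsMaxT B) : hull B ⊆ B :=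
  hB.2 (y := hull B) ⟨isAlg_hull hB.1.1, propT_hull hB.1.2⟩ (subset_hull hB.1.1)

theorem lam_singleton (x : Cantor) : lam {x} = 0 := by
  have h : ∀ n : ℕ, lam {x} ≤ (2⁻¹ : ENNReal) ^ n := by
    intro n
    have h1 : ({x} : Set Cantor) ⊆ Set.pi (Finset.range n) (fun i => {x i}) := by
      rintro y rfl i _
      rfl
    refine (measure_mono h1).trans ?_
    unfold lam
    rw [Measure.infinitePi_pi _ (fun i _ => MeasurableSet.singleton _)]
    have h2 : ∀ b : Bool, coin {b} = 2⁻¹ := by
      intro b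
      unfold coin
      rw [PMF.toMeasure_apply_singleton _ _ (MeasurableSet.singleton _)]
      simp
    simp [h2]
  have h2 : Filter.Tendsto (fun n : ℕ => (2⁻¹ : ENNReal) ^ n) Filter.atTop (nhds 0) :=
    ENNReal.tendsto_pow_atTop_nhds_zero_of_lt_one (by simp)
  exact le_antisymm (ge_of_tendsto' h2 h) bot_le

theorem singleton_mem {B : Set (Set Cantor)} (hB : IsMaxT B) (x : Cantor) : {x} ∈ B := by
  apply hull_subset hB
  have hm : MeasurableSet[borel Cantor] ({x} : Set Cantor) := by
    rw [← BorelSpace.measurable_eq (α := Cantor)]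
    exact MeasurableSet.singleton x
  refine ⟨hm, ∅, hB.1.1.clopen ∅ isClopen_empty, ?_⟩
  exact (ae_eq_empty).2 (lam_singleton x)

/-! ### The cardinality of maximal algebras -/

theorem mk_of_isMaxT {B : Set (Set Cantor)} (hB : IsMaxT B) : #B = 𝔠 := by
  apply le_antisymm
  · have h1 : B ⊆ {A : Set Cantor | MeasurableSet A} := by
      intro A hA
      have := hB.1.1.borel A hA
      rwa [← BorelSpace.measurable_eq (α := Cantor)] at this
    refine (Cardinal.mk_le_mk_of_subset h1).trans ?_
    haveI : MeasurableSpace.CountablyGenerated Cantor := inferInstance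
    obtain ⟨s, hs, hs'⟩ := this.isCountablyGenerated
    rw [hs']
    exact MeasurableSpace.cardinal_measurableSet_le_continuum
      ((Cardinal.le_aleph0_iff_set_countable.2 hs).trans Cardinal.aleph0_le_continuum)
  · have h1 : Function.Injective fun x : Cantor => (⟨{x}, singleton_mem hB x⟩ : B) := by
      intro x y h
      have := congrArg Subtype.val h
      simpa using this
    have h2 := Cardinal.mk_le_of_injective h1
    have h3 : #Cantor = 𝔠 := by simp [Cantor]
    rwa [h3] at h2

/-! ### Existence of maximal algebras -/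

theorem borel_of_clopen {A : Set Cantor} (hA : IsClopen A) : MeasurableSet[borel Cantor] A :=
  MeasurableSpace.measurableSet_generateFrom hA.isOpen

/-- A clopen set is a union of atoms of `𝒜_n` for all large `n`. -/
theorem clopen_level {A : Set Cantor} (hA : IsClopen A) :
    ∃ N : ℕ, ∀ n ≥ N, ∀ x y : Cantor, (∀ i ≤ n, y i = x i) → (x ∈ A ↔ y ∈ A) := by
  have key : ∃ N : ℕ, ∀ n ≥ N, ∀ x ∈ (Set.univ : Set Cantor), ∀ y : Cantor,
      (∀ i ≤ n, y i = x i) → (x ∈ A ↔ y ∈ A) := by
    refine (isCompact_univ (X := Cantor)).induction_on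
      (p := fun S => ∃ N : ℕ, ∀ n ≥ N, ∀ x ∈ S, ∀ y : Cantor,
        (∀ i ≤ n, y i = x i) → (x ∈ A ↔ y ∈ A)) ⟨0, fun _ _ x hx => absurd hx (by simp)⟩ ?_ ?_ ?_
    · rintro S T hST ⟨N, hN⟩
      exact ⟨N, fun n hn x hx => hN n hn x (hST hx)⟩
    · rintro S T ⟨N, hN⟩ ⟨M, hM⟩
      refine ⟨max N M, fun n hn x hx => ?_⟩
      rcases hx with hx | hx
      · exact hN n ((le_max_left _ _).trans hn) x hx
      · exact hM n ((le_max_right _ _).trans hn) x hx
    · intro x _
      have hcyl : ∀ C : Set Cantor, IsOpen C → x ∈ C →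
          ∃ n, PiNat.cylinder (E := fun _ => Bool) x n ⊆ C := by
        intro C hC hx
        obtain ⟨v, ⟨z, n, rfl⟩, hv1, hv2⟩ :=
          (PiNat.isTopologicalBasis_cylinders (fun _ => Bool)).mem_nhds_iff.1 (hC.mem_nhds hx)
        refine ⟨n, ?_⟩
        rw [PiNat.mem_cylinder_iff_eq.1 hv1]
        exact hv2
      by_cases hxA : x ∈ A
      · obtain ⟨n, hn⟩ := hcyl A hA.isOpen hxA
        refine ⟨PiNat.cylinder x n, mem_nhdsWithin_of_mem_nhds
          ((PiNat.isOpen_cylinder _ x n).mem_nhds (PiNat.self_mem_cylinder x n)), n, ?_⟩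
        intro k hk z hz y hy
        have h1 : y ∈ PiNat.cylinder (E := fun _ => Bool) x n := fun i hi => by
          rw [hy i (by omega)]
          exact hz i hi
        exact iff_of_true (hn hz) (hn h1)
      · obtain ⟨n, hn⟩ := hcyl Aᶜ hA.compl.isOpen hxA
        refine ⟨PiNat.cylinder x n, mem_nhdsWithin_of_mem_nhds
          ((PiNat.isOpen_cylinder _ x n).mem_nhds (PiNat.self_mem_cylinder x n)), n, ?_⟩
        intro k hk z hz y hy
        have h1 : y ∈ PiNat.cylinder (E := fun _ => Bool) x n := fun i hi => by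
          rw [hy i (by omega)]
          exact hz i hi
        exact iff_of_false (hn hz) (hn h1)
  obtain ⟨N, hN⟩ := key
  exact ⟨N, fun n hn x y => hN n hn x (Set.mem_univ _) y⟩

theorem coin_singleton (b : Bool) : coin {b} = 2⁻¹ := by
  unfold coin
  rw [PMF.toMeasure_apply_singleton _ _ (MeasurableSet.singleton _)]
  simp

theorem lam_atom_inter (n : ℕ) (x : Cantor) (m : ℕ) (hm : n < m) (b : Bool) :
    lam (atom n x ∩ V m b) = 2⁻¹ ^ (n + 2) := by
  classical
  have h1 : atom n x ∩ V m b = Set.pi (insert m (Finset.range (n + 1)) : Finset ℕ)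
      (fun i => {if i = m then b else x i}) := by
    ext y
    simp only [atom, V, Set.mem_inter_iff, Set.mem_setOf_eq, Set.mem_pi, Finset.coe_insert,
      Finset.coe_range, Set.mem_insert_iff, Set.mem_Iio, Set.mem_singleton_iff]
    constructor
    · rintro ⟨h1, h2⟩ i (rfl | hi)
      · simpa using h2
      · rw [if_neg (by omega)]
        exact h1 i (by omega)
    · intro h
      refine ⟨fun i hi => ?_, by simpa using h m (Or.inl rfl)⟩
      have := h i (Or.inr (by omega))
      rwa [if_neg (by omega)] at this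
  rw [h1]
  unfold lam
  rw [Measure.infinitePi_pi _ (fun i _ => MeasurableSet.singleton _)]
  simp only [coin_singleton, Finset.prod_const]
  rw [Finset.card_insert_of_notMem (by simp; omega), Finset.card_range]

theorem phi_atom (n : ℕ) (x : Cantor) (m : ℕ) (hm : n < m) : phi m (atom n x) = 0 := by
  unfold phi
  rw [measureReal_def, measureReal_def, lam_atom_inter n x m hm, lam_atom_inter n x m hm]
  simp

theorem isAlg_clopen : IsAlg {A : Set Cantor | IsClopen A} where
  borel := fun _ hA => borel_of_clopen hA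
  clopen := fun _ hA => hA
  compl := fun _ hA => IsClopen.compl hA
  union := fun _ hA _ hA' => IsClopen.union hA hA'

theorem propT_clopen : PropT {A : Set Cantor | IsClopen A} := by
  classical
  intro F hF ε hε
  have hN : ∃ N : ℕ, ∀ A ∈ F, ∀ n ≥ N, ∀ x y : Cantor, (∀ i ≤ n, y i = x i) →
      (x ∈ A ↔ y ∈ A) := by
    induction F using Finset.induction_on with
    | empty => exact ⟨0, fun A hA => absurd hA (by simp)⟩
    | insert A F _ ih =>
      obtain ⟨N, hN⟩ := ih fun A hA => hF A (Finset.mem_insert_of_mem hA)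
      obtain ⟨M, hM⟩ := clopen_level (hF A (Finset.mem_insert_self _ _))
      refine ⟨max N M, fun C hC n hn => ?_⟩
      rcases Finset.mem_insert.1 hC with rfl | hC
      · exact hM n ((le_max_right _ _).trans hn)
      · exact hN C hC n ((le_max_left _ _).trans hn)
  obtain ⟨N, hN⟩ := hN
  refine ⟨N + 1, Nat.succ_pos _, fun x A hA => ?_⟩
  have h := hN A hA (N + 1) (Nat.le_succ _) x
  have hnn : ∀ k : ℕ, 0 ≤ ε * lam.real (atom (N + 1) x) / k := fun k => by positivity
  by_cases hx : x ∈ A
  · have e : A ∩ atom (N + 1) x = atom (N + 1) x :=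
      Set.inter_eq_right.2 fun y hy => (h y hy).1 hx
    have e' : atom (N + 1) x \ A = ∅ := Set.diff_eq_empty.2 fun y hy => (h y hy).1 hx
    refine ⟨Or.inr (by rw [e', measureReal_empty]; exact hnn _), fun m hm => ?_⟩
    rw [e, phi_atom _ _ _ hm]
    exact hnn m
  · have e : A ∩ atom (N + 1) x = ∅ := by
      rw [Set.eq_empty_iff_forall_notMem]
      rintro y ⟨hy1, hy2⟩
      exact hx ((h y hy2).2 hy1)
    refine ⟨Or.inl (by rw [e, measureReal_empty]; exact hnn _), fun m hm => ?_⟩
    rw [e]
    unfold phi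
    simpa using hnn m

theorem exists_mem_of_chain {c : Set (Set (Set Cantor))} (hc : IsChain (· ⊆ ·) c)
    (hne : c.Nonempty) (F : Finset (Set Cantor)) (hF : ∀ A ∈ F, A ∈ ⋃₀ c) :
    ∃ B ∈ c, ∀ A ∈ F, A ∈ B := by
  classical
  induction F using Finset.induction_on with
  | empty => exact ⟨hne.some, hne.some_mem, fun A hA => absurd hA (by simp)⟩
  | insert A F _ ih =>
    obtain ⟨B, hB, h⟩ := ih fun A hA => hF A (Finset.mem_insert_of_mem hA)
    obtain ⟨C, hC, h'⟩ := hF A (Finset.mem_insert_self _ _)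
    rcases hc.total hB hC with h1 | h1
    · refine ⟨C, hC, fun D hD => ?_⟩
      rcases Finset.mem_insert.1 hD with rfl | hD
      · exact h'
      · exact h1 (h D hD)
    · refine ⟨B, hB, fun D hD => ?_⟩
      rcases Finset.mem_insert.1 hD with rfl | hD
      · exact h1 h'
      · exact h D hD

theorem exists_isMaxT : ∃ B : Set (Set Cantor), IsMaxT B := by
  classical
  obtain ⟨B, hB⟩ := zorn_subset {B : Set (Set Cantor) | IsAlg B ∧ PropT B} (by
    intro c hcS hc
    rcases c.eq_empty_or_nonempty with rfl | hne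
    · exact ⟨_, ⟨isAlg_clopen, propT_clopen⟩, by simp⟩
    · refine ⟨⋃₀ c, ⟨⟨?_, ?_, ?_, ?_⟩, ?_⟩, fun s hs => Set.subset_sUnion_of_mem hs⟩
      · rintro A ⟨B, hB, hA⟩
        exact (hcS hB).1.borel A hA
      · intro A hA
        obtain ⟨B, hB⟩ := hne
        exact ⟨B, hB, (hcS hB).1.clopen A hA⟩
      · rintro A ⟨B, hB, hA⟩
        exact ⟨B, hB, (hcS hB).1.compl A hA⟩
      · intro A hA A' hA'
        obtain ⟨B, hB, h⟩ := exists_mem_of_chain hc hne {A, A'} (by
          intro D hD
          simp only [Finset.mem_insert, Finset.mem_singleton] at hD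
          rcases hD with rfl | rfl
          · exact hA
          · exact hA')
        exact ⟨B, hB, (hcS hB).1.union A (h A (by simp)) A' (h A' (by simp))⟩
      · intro F hF ε hε
        obtain ⟨B, hB, h⟩ := exists_mem_of_chain hc hne F hF
        exact (hcS hB).2 F h ε hε)
  exact ⟨B, hB⟩

/-- ZFC proves `prop_(T) = 𝔠`. In fact every maximal subalgebra of `Bor(2^ℕ)` with property (T)
has cardinality `𝔠`. -/
theorem result : propT = 𝔠 ∧ ∀ B : Set (Set Cantor), IsMaxT B → #B = 𝔠 := by
  refine ⟨?_, fun B hB => mk_of_isMaxT hB⟩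
  obtain ⟨B, hB⟩ := exists_isMaxT
  apply le_antisymm
  · exact csInf_le' ⟨B, hB, mk_of_isMaxT hB⟩
  · refine le_csInf ⟨_, B, hB, rfl⟩ ?_
    rintro κ ⟨C, hC, rfl⟩
    exact (mk_of_isMaxT hC).ge

end Pool.Agent.Results.MP_898cae_lc.PropTEqContinuum
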